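import Pool.Agent.Work.MP_223b32_tr.Defs
import Pool.Agent.Work.MP_223b32_tl.Interface2
import Pool.Agent.Work.MP_223b32_tl_helper15.SUMD

/-!
# Orbits of algebraic integers of small degree, and the short multiples of a cofactor
-/

namespace Pool.Agent.Work.TR

open Finset Polynomial Pool.Agent.Work.MP_223b32_ag Pool.Agent.Work.TC Pool.Agent.Work.TL

/-- A root of a monic integral polynomial is fixed by a power of `σ` with exponent at most the
degree. -/
theorem fix_one (σ : AA ≃+* AA) (x : AA) (P : ℤ[X]) (hP : P.Monic) (hx : aeval x P = 0) :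
    ∃ k : ℕ, 0 < k ∧ k ≤ P.natDegree ∧ (σ ^ k) x = x := by
  classical
  have hmem : ∀ i : ℕ, (σ ^ i) x ∈ (P.map (algebraMap ℤ AA)).roots.toFinset := by
    intro i
    rw [Multiset.mem_toFinset, mem_roots (hP.map _).ne_zero, IsRoot.def, eval_map_algebraMap]
    have h1 := congrArg (((σ ^ i : AA ≃+* AA) : AA →+* AA) : AA → AA) hx
    rw [map_zero, aeval_def, hom_eval₂] at h1
    rw [aeval_def, ← h1]
    refine eval₂_congr ?_ rfl rfl
    exact RingHom.ext_int _ _
  have hcard : (P.map (algebraMap ℤ AA)).roots.toFinset.card ≤ P.natDegree := by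
    refine (Multiset.toFinset_card_le _).trans ((card_roots' _).trans ?_)
    exact natDegree_map_le
  obtain ⟨i, hi, j, hj, hij, heq⟩ := Finset.exists_ne_map_eq_of_card_lt_of_maps_to
    (s := range (P.natDegree + 1)) (t := (P.map (algebraMap ℤ AA)).roots.toFinset)
    (by rw [card_range]; omega) (f := fun i => (σ ^ i) x) (fun i _ => by exact hmem i)
  have key : ∀ i j : ℕ, i < j → j ≤ P.natDegree → (σ ^ i) x = (σ ^ j) x →
      ∃ k : ℕ, 0 < k ∧ k ≤ P.natDegree ∧ (σ ^ k) x = x := by
    intro i j hij hj heq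
    refine ⟨j - i, by omega, by omega, ?_⟩
    have h1 : σ ^ j = σ ^ i * σ ^ (j - i) := by
      rw [← pow_add]
      congr 1
      omega
    rw [h1, RingAut.mul_apply] at heq
    exact ((σ ^ i).injective heq).symm
  rcases lt_or_gt_of_ne hij with h | h
  · exact key i j h (Nat.lt_succ_iff.1 (mem_range.1 hj)) heq
  · exact key j i h (Nat.lt_succ_iff.1 (mem_range.1 hi)) heq.symm

/-- A product of algebraic integers each of degree less than every prime factor of `v` is fixed by a
power of `σ` with exponent prime to `v`. -/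
theorem fix_prod (σ : AA ≃+* AA) (v : ℕ) : ∀ t : Multiset ℂ,
    (∀ γ ∈ t, ∃ P : ℤ[X], P.Monic ∧ aeval γ P = 0 ∧
      ∀ ℓ : ℕ, ℓ.Prime → ℓ ∣ v → P.natDegree < ℓ) →
    ∃ (x : AA) (K : ℕ), (x : ℂ) = t.prod ∧ 0 < K ∧ Nat.Coprime K v ∧ (σ ^ K) x = x := by
  intro t
  induction t using Multiset.induction_on with
  | empty =>
    intro _
    exact ⟨1, 1, by simp, one_pos, Nat.coprime_one_left v, by simp⟩
  | cons γ t ih =>
    intro h
    obtain ⟨x, K, hx, hK, hKv, hfix⟩ := ih fun γ' hγ' => h γ' (Multiset.mem_cons_of_mem hγ')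
    obtain ⟨P, hP, hγ, hdeg⟩ := h γ (Multiset.mem_cons_self γ t)
    have hint : IsIntegral ℤ γ := ⟨P, hP, by rwa [aeval_def] at hγ⟩
    set y : AA := ⟨γ, hint⟩ with hy
    have hyP : aeval y P = 0 := by
      apply Subtype.ext
      have h1 : ((aeval y P : AA) : ℂ) = aeval γ P := by
        have := aeval_algHom_apply (integralClosure ℤ ℂ).val y P
        exact this.symm
      rw [h1, hγ]
      rfl
    obtain ⟨k, hk0, hk, hky⟩ := fix_one σ y P hP hyP
    refine ⟨y * x, k * K, ?_, Nat.mul_pos hk0 hK, ?_, ?_⟩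
    · push_cast
      rw [hx, Multiset.prod_cons]
    · refine Nat.Coprime.mul_left ?_ hKv
      refine Nat.coprime_of_dvd fun ℓ hℓ h1 h2 => ?_
      have h3 := hdeg ℓ hℓ h2
      have h4 := Nat.le_of_dvd hk0 h1
      omega
    · have hpow : ∀ (z : AA) (i j : ℕ), (σ ^ i) z = z → (σ ^ (i * j)) z = z := by
        intro z i j hz
        rw [pow_mul]
        induction j with
        | zero => simp
        | succ j ih => rw [pow_succ, RingAut.mul_apply, hz, ih]
      rw [map_mul, hpow y k K hky, mul_comm k K, hpow x K k hfix]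

/-- A nonzero polynomial of degree less than `g = u v` which is divisible by
`∑ η ^ j X ^ (u j)`, `j < v`, has at least `v` nonzero coefficients. -/
theorem short {g u v : ℕ} {η : ℤ} (hη : η = 1 ∨ η = -1) (hu : 1 ≤ u) (hv : 1 ≤ v) (hg : g = u * v)
    (P : ℤ[X]) (hdeg : P.degree < (g : ℕ)) (hne : P ≠ 0) (hdvd : Psi0 v u η ∣ P) (c : ℕ → ℕ)
    (hc : ∀ i < g, P.coeff i ≠ 0 → 1 ≤ c i) : v ≤ ∑ i ∈ range g, c i := by
  classical
  obtain ⟨Q, hQ⟩ := hdvd
  have hQ0 : Q ≠ 0 := by
    rintro rfl
    rw [mul_zero] at hQ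
    exact hne hQ
  have hcoefPsi : ∀ k < v, (Psi0 v u η).coeff (u * k) = η ^ k := by
    intro k hk
    unfold Psi0
    rw [finsetSum_coeff, sum_eq_single k]
    · rw [coeff_C_mul, coeff_X_pow, if_pos rfl, mul_one]
    · intro j _ hj
      rw [coeff_C_mul, coeff_X_pow, if_neg, mul_zero]
      intro h1
      exact hj (Nat.eq_of_mul_eq_mul_left (by omega) h1).symm
    · intro h1
      exact absurd (mem_range.2 hk) h1
  have hηk : ∀ k : ℕ, η ^ k ≠ 0 := by
    intro k
    rcases hη with h1 | h1 <;> rw [h1] <;> simp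
  have hdegPsi : u * (v - 1) ≤ (Psi0 v u η).natDegree := by
    refine le_natDegree_of_ne_zero ?_
    rw [hcoefPsi (v - 1) (by omega)]
    exact hηk _
  have hPsi0 : Psi0 v u η ≠ 0 := by
    intro h1
    have h2 := hcoefPsi 0 (by omega)
    rw [h1, coeff_zero] at h2
    exact hηk 0 h2.symm
  have hndP : P.natDegree < g := by
    rw [← natDegree_lt_iff_degree_lt hne] at hdeg
    exact hdeg
  have hndQ : Q.natDegree < u := by
    have h1 : P.natDegree = (Psi0 v u η).natDegree + Q.natDegree := by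
      rw [hQ, natDegree_mul hPsi0 hQ0]
    have h2 : u * (v - 1) + u = g := by
      rw [hg]
      obtain ⟨t, rfl⟩ : ∃ t, v = t + 1 := ⟨v - 1, by omega⟩
      simp [Nat.mul_succ]
    omega
  set i0 := Q.natDegree with hi0
  have hcoefP : ∀ k < v, P.coeff (i0 + u * k) = η ^ k * Q.coeff i0 := by
    intro k hk
    have h1 : P = ∑ j ∈ range v, C (η ^ j) * (X ^ (u * j) * Q) := by
      rw [hQ]
      unfold Psi0
      rw [sum_mul]
      exact sum_congr rfl fun j _ => by ring
    rw [h1, finsetSum_coeff, sum_eq_single k]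
    · rw [coeff_C_mul, coeff_X_pow_mul', if_pos (by omega)]
      congr 2
      omega
    · intro j _ hj
      rw [coeff_C_mul, coeff_X_pow_mul']
      split_ifs with h2
      · have h3 : j < k := by
          by_contra h4
          have h5 : k + 1 ≤ j := by omega
          have h6 : u * (k + 1) ≤ u * j := Nat.mul_le_mul_left _ h5
          rw [Nat.mul_succ] at h6
          omega
        have h4 : u * (j + 1) ≤ u * k := Nat.mul_le_mul_left _ h3
        rw [Nat.mul_succ] at h4
        rw [coeff_eq_zero_of_natDegree_lt (by omega), mul_zero]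
      · rw [mul_zero]
    · intro h2
      exact absurd (mem_range.2 hk) h2
  have hlt : ∀ k < v, i0 + u * k < g := by
    intro k hk
    have h1 : u * (k + 1) ≤ u * v := Nat.mul_le_mul_left _ hk
    rw [Nat.mul_succ] at h1
    omega
  have hpos : ∀ k < v, 1 ≤ c (i0 + u * k) := by
    intro k hk
    refine hc _ (hlt k hk) ?_
    rw [hcoefP k hk]
    refine mul_ne_zero (hηk k) ?_
    rw [hi0, coeff_natDegree]
    exact leadingCoeff_ne_zero.2 hQ0
  have hinj : Function.Injective fun k : ℕ => i0 + u * k := by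
    intro x y hxy
    have h3 : i0 + u * x = i0 + u * y := hxy
    exact Nat.eq_of_mul_eq_mul_left (show 0 < u by omega) (by omega)
  calc v = ∑ k ∈ range v, 1 := by simp
    _ ≤ ∑ k ∈ range v, c (i0 + u * k) := sum_le_sum fun k hk => hpos k (mem_range.1 hk)
    _ = ∑ i ∈ (range v).image (fun k : ℕ => i0 + u * k), c i := by
        rw [sum_image (f := c) (g := fun k : ℕ => i0 + u * k) (fun x _ y _ hxy => hinj hxy)]
    _ ≤ ∑ i ∈ range g, c i := by
        refine sum_le_sum_of_subset ?_
        intro i hi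
        obtain ⟨k, hk, rfl⟩ := mem_image.1 hi
        exact mem_range.2 (hlt k (mem_range.1 hk))

end Pool.Agent.Work.TR
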