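import Pool.Agent.Work.MP_223b32_tr.FIX
import Pool.Agent.Work.MP_223b32_tl_helper28.ALGT
import Pool.Agent.Work.MP_223b32_tl_helper64.ID

/-!
# ALGR: relations with algebraic integers of small degree
-/

namespace Pool.Agent.Work.TR

open Finset Polynomial Pool.Agent.Work.MP_223b32_ag Pool.Agent.Work.TC Pool.Agent.Work.TL

/-- A cyclotomic polynomial divides `X ^ k - η` iff its complex roots are roots of `X ^ k - η`. -/
theorem cyc_dvd {d k : ℕ} {η : ℤ} {z : ℂ} (hd : 0 < d) (hz : IsPrimitiveRoot z d) :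
    cyclotomic d ℤ ∣ X ^ k - C η ↔ z ^ k = η := by
  constructor
  · rintro ⟨Q, hQ⟩
    have h1 := congrArg (aeval z) hQ
    rw [map_mul, map_sub, map_pow, aeval_X, aeval_C] at h1
    have h2 : aeval z (cyclotomic d ℤ) = 0 := by
      rw [aeval_def, eval₂_eq_eval_map, map_cyclotomic]
      exact (hz.isRoot_cyclotomic hd)
    rw [h2, zero_mul, sub_eq_zero] at h1
    simpa using h1
  · intro h
    rw [cyclotomic_eq_minpoly hz hd]
    refine minpoly.isIntegrallyClosed_dvd (hz.isIntegral hd) ?_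
    rw [map_sub, map_pow, aeval_X, aeval_C, h]
    simp

/-- The order-theoretic step. -/
theorem eta_of_pow {η : ℤ} (hη : η = 1 ∨ η = -1) {y : ℂ} {v K : ℕ} (hv : Odd v)
    (hKv : Nat.Coprime K v) (h1 : y ^ v = η) (h2 : y ^ K = 1) : y = η := by
  have key : ∀ (x : ℂ) (a b : ℕ), Nat.Coprime a b → x ^ a = 1 → x ^ b = 1 → x = 1 := by
    intro x a b hab ha hb
    have h3 : orderOf x ∣ Nat.gcd a b := Nat.dvd_gcd (orderOf_dvd_of_pow_eq_one ha)
      (orderOf_dvd_of_pow_eq_one hb)
    rw [hab] at h3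
    exact orderOf_eq_one_iff.1 (Nat.dvd_one.1 h3)
  rcases hη with rfl | rfl
  · rw [Int.cast_one] at h1 ⊢
    exact key y K v hKv h2 h1
  · have h3 : (-y) ^ v = 1 := by
      rw [hv.neg_pow, h1]
      simp
    have h4 : (-y) ^ (2 * K) = 1 := by
      rw [pow_mul, neg_sq, ← pow_mul, mul_comm, pow_mul, h2, one_pow]
    have h5 : Nat.Coprime (2 * K) v :=
      Nat.Coprime.mul_left (Nat.coprime_two_left.2 hv) hKv
    have h6 := key (-y) (2 * K) v h5 h4 h3
    push_cast
    rw [← h6, neg_neg]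

/-- The exceptional index. -/
theorem eta_of_d0 {n u v : ℕ} (hn : n % 8 = 3 ∨ n % 8 = 5 ∨ n % 8 = 7) (hv : Odd v)
    (hg : n / 2 = u * v) {z : ℂ} (hz : IsPrimitiveRoot z (d0 n)) : z ^ u = TL.eta n := by
  rcases hn with h | h | h
  · have he : TL.eta n = -1 := by unfold TL.eta; rw [if_neg (by omega)]
    have hd : d0 n = 2 := by unfold d0; rw [if_neg (by omega), if_pos h]
    rw [hd] at hz
    have hz1 : z = -1 := hz.eq_neg_one_of_two_right
    have hu : Odd u := by
      have h1 : Odd (u * v) := by rw [← hg, Nat.odd_iff]; omega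
      exact (Nat.odd_mul.1 h1).1
    rw [hz1, hu.neg_one_pow, he]
    simp
  · have he : TL.eta n = -1 := by unfold TL.eta; rw [if_neg (by omega)]
    have hd : d0 n = 4 := by unfold d0; rw [if_neg (by omega), if_neg (by omega)]
    rw [hd] at hz
    have hz1 : z ^ 2 = -1 := by
      have h1 : z ^ 4 = 1 := hz.pow_eq_one
      have h2 : z ^ 2 ≠ 1 := fun h3 => by
        have := hz.dvd_of_pow_eq_one 2 h3
        omega
      have h3 : (z ^ 2 - 1) * (z ^ 2 + 1) = 0 := by linear_combination h1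
      rcases mul_eq_zero.1 h3 with h4 | h4
      · exact absurd (sub_eq_zero.1 h4) h2
      · exact eq_neg_of_add_eq_zero_left h4
    obtain ⟨x, hx⟩ : ∃ x, u = 2 * x := by
      have h1 : Even (u * v) := by rw [← hg, Nat.even_iff]; omega
      rcases Nat.even_mul.1 h1 with h2 | h2
      · obtain ⟨x, hx⟩ := h2
        exact ⟨x, by omega⟩
      · exact absurd hv (Nat.not_odd_iff_even.2 h2)
    have hxo : Odd x := by
      by_contra hne
      rw [Nat.not_odd_iff_even] at hne
      obtain ⟨y, hy⟩ := hne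
      have h2 : n / 2 = 4 * (y * v) := by
        rw [hg, hx, hy]
        ring
      omega
    rw [hx, pow_mul, hz1, hxo.neg_one_pow, he]
    simp
  · have he : TL.eta n = 1 := by unfold TL.eta; rw [if_pos h]
    have hd : d0 n = 1 := by unfold d0; rw [if_pos h]
    rw [hd] at hz
    rw [IsPrimitiveRoot.one_right_iff.1 hz, one_pow, he]
    simp

/-- ALGR. -/
theorem algr (hID : Stmt_ID) (hDIV : Stmt_DIV) (hCYC : Stmt_CYC)
    (n g q : ℕ) (ρ : AA →+* Om) (σ : AA ≃+* AA) (r : ℕ → ℕ) (ζ : Om) (al be w v' : ℕ → AA)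
    (h : Orb n g (eta n) q ρ σ r ζ al be w v')
    (hn : n % 8 = 3 ∨ n % 8 = 5 ∨ n % 8 = 7)
    (hex : ¬ ∃ d ∈ DD g (eta n), d ≠ d0 n ∧ Rel q al (Psi g (eta n) d))
    (v : ℕ) (hv : Odd v) (hvg : v ∣ g) (z : ℂ) (hz : Tame q v z) (s : Multiset ℂ)
    (hs : ∀ y ∈ s, ∃ i < g, y = al i ∨ y = be i) (hsv : s.card < v) (N m : ℕ) (hN : 0 < N)
    (hrel : (z * s.prod) ^ N = (q : ℂ) ^ m) :
    ∀ i < g, s.count (al i : ℂ) = s.count (be i : ℂ) := by
  classical
  have hη : eta n = 1 ∨ eta n = -1 := ALG.eta_cases n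
  have hq0 : (q : ℂ) ≠ 0 := by
    have : q ≠ 0 := h.odd_q.pos.ne'
    exact_mod_cast this
  have hqA : (q : AA) ≠ 0 := by
    intro h1
    have h2 := congrArg (fun x : AA => (x : ℂ)) h1
    push_cast at h2
    exact hq0 h2
  have hmul : ∀ i, (al i : ℂ) * (be i : ℂ) = q := by
    intro i
    have h1 := congrArg (fun x : AA => (x : ℂ)) (h.mul i)
    push_cast at h1
    exact h1
  have hal0 : ∀ i, (al i : ℂ) ≠ 0 := by
    intro i h0
    have h1 := hmul i
    rw [h0, zero_mul] at h1
    exact hq0 h1.symm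
  have halA : ∀ i, al i ≠ 0 := by
    intro i h0
    have h1 := h.mul i
    rw [h0, zero_mul] at h1
    exact hqA h1.symm
  have hbe0 : ∀ i, (be i : ℂ) ≠ 0 := by
    intro i h0
    have h1 := hmul i
    rw [h0, mul_zero] at h1
    exact hq0 h1.symm
  have hinj1 : Set.InjOn (fun i => (al i : ℂ)) (range g : Finset ℕ) := by
    intro i hi j hj hij
    exact (h.inj i (mem_range.1 hi) j (mem_range.1 hj)).1 (Subtype.ext hij)
  have hinj2 : Set.InjOn (fun i => (be i : ℂ)) (range g : Finset ℕ) := by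
    intro i hi j hj hij
    have h1 : (al i : ℂ) = al j := by
      have h2 := hmul i
      have h3 := hmul j
      have h4 : (be i : ℂ) = be j := hij
      rw [h4, ← h3] at h2
      exact mul_right_cancel₀ (hbe0 j) h2
    exact hinj1 hi hj h1
  have hdisj : Disjoint ((range g).image fun i => (al i : ℂ))
      ((range g).image fun i => (be i : ℂ)) := by
    rw [Finset.disjoint_left]
    intro z hz hz'
    obtain ⟨i, hi, rfl⟩ := mem_image.1 hz
    obtain ⟨j, hj, hij⟩ := mem_image.1 hz'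
    exact (h.inj i (mem_range.1 hi) j (mem_range.1 hj)).2 (Subtype.ext hij.symm)
  set Z : Finset ℂ := ((range g).image fun i => (al i : ℂ)) ∪
    ((range g).image fun i => (be i : ℂ)) with hZ
  have hsZ : ∀ z ∈ s, z ∈ Z := by
    intro z hz
    obtain ⟨i, hi, h1 | h1⟩ := hs z hz
    · exact mem_union_left _ (mem_image.2 ⟨i, mem_range.2 hi, h1.symm⟩)
    · exact mem_union_right _ (mem_image.2 ⟨i, mem_range.2 hi, h1.symm⟩)
  set a : ℕ → ℕ := fun i => s.count (al i : ℂ) with ha
  set b : ℕ → ℕ := fun i => s.count (be i : ℂ) with hb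
  have hprod : s.prod = ∏ i ∈ range g, ((al i : ℂ) ^ a i * (be i : ℂ) ^ b i) := by
    rw [prod_multiset_count_of_subset s Z (fun z hz => hsZ z (Multiset.mem_toFinset.1 hz)),
      hZ, prod_union hdisj, prod_image hinj1, prod_image hinj2, prod_mul_distrib]
  have hcard : s.card = ∑ i ∈ range g, (a i + b i) := by
    rw [← Multiset.sum_count_eq_card (s := Z) hsZ, hZ, sum_union hdisj, sum_image hinj1,
      sum_image hinj2, sum_add_distrib]
  set c : ℕ → ℤ := fun i => (a i : ℤ) - (b i : ℤ) with hc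
  set P : ℤ[X] := ∑ i ∈ range g, C (c i) * X ^ i with hP
  have hcoeff : ∀ i < g, P.coeff i = c i := by
    intro i hi
    rw [hP, finsetSum_coeff]
    simp only [coeff_C_mul, coeff_X_pow, mul_ite, mul_one, mul_zero]
    rw [sum_ite_eq, if_pos (mem_range.2 hi)]
  have hcoeff0 : ∀ i, g ≤ i → P.coeff i = 0 := by
    intro m hm
    rw [hP, finsetSum_coeff]
    refine sum_eq_zero fun i hi => ?_
    have h1 : i < g := mem_range.1 hi
    rw [coeff_C_mul, coeff_X_pow, if_neg (by omega), mul_zero]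
  have hdeg : P.degree < (g : ℕ) := by
    rw [degree_lt_iff_coeff_zero]
    exact hcoeff0
  have hg : 0 < g := by
    have h1 := h.prime.two_le
    have h2 := h.two_g
    omega
  -- the products along the orbit
  set S : ℕ → AA := fun K => ∏ i ∈ range g, (al (i + K) ^ a i * be (i + K) ^ b i) with hS
  have hS0 : ((S 0 : AA) : ℂ) = s.prod := by
    rw [hprod, hS]
    push_cast
    rfl
  have hbes : ∀ i, be (i + 1) = σ (be i) := by
    intro i
    have h1 := h.mul (i + 1)
    have h2 := congrArg σ (h.mul i)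
    rw [map_mul, map_natCast, ← h.shift, ← h1] at h2
    exact (mul_left_cancel₀ (halA (i + 1)) h2).symm
  have halK : ∀ K i, al (i + K) = (σ ^ K) (al i) := by
    intro K
    induction K with
    | zero => intro i; simp
    | succ K ih =>
      intro i
      rw [← add_assoc, h.shift, ih, pow_succ', RingAut.mul_apply]
  have hbeK : ∀ K i, be (i + K) = (σ ^ K) (be i) := by
    intro K
    induction K with
    | zero => intro i; simp
    | succ K ih =>
      intro i
      rw [← add_assoc, hbes, ih, pow_succ', RingAut.mul_apply]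
  have hSK : ∀ K, S K = (σ ^ K) (S 0) := by
    intro K
    rw [hS]
    simp only [map_prod, map_mul, map_pow, add_zero]
    exact prod_congr rfl fun i _ => by rw [halK, hbeK]
  have hThK : ∀ K, Th q al (X ^ K * P) = (S K : ℂ) ^ 2 / (q : ℂ) ^ s.card := by
    intro K
    have hsub : (X ^ K * P).support ⊆ (range g).map (addRightEmbedding K) := by
      intro j hj
      rw [mem_support_iff, coeff_X_pow_mul'] at hj
      have h1 : K ≤ j := by
        by_contra h2
        rw [if_neg h2] at hj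
        exact hj rfl
      rw [if_pos h1] at hj
      have h2 : j - K < g := by
        by_contra h3
        exact hj (hcoeff0 _ (by omega))
      rw [mem_map]
      exact ⟨j - K, mem_range.2 h2, by rw [addRightEmbedding_apply]; omega⟩
    rw [ID.th_eq q al _ _ hsub, prod_map, hcard, hS]
    push_cast
    rw [← prod_pow, ← prod_pow_eq_pow_sum, ← prod_div_distrib]
    refine prod_congr rfl fun i hi => ?_
    rw [addRightEmbedding_apply, coeff_X_pow_mul, hcoeff i (mem_range.1 hi)]
    have h0 : ((al (i + K) : ℂ) ^ 2 / q) ≠ 0 := div_ne_zero (pow_ne_zero _ (hal0 _)) hq0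
    have h1 : (be (i + K) : ℂ) ^ 2 / q = ((al (i + K) : ℂ) ^ 2 / q)⁻¹ := by
      have h2 := hmul (i + K)
      rw [inv_div, div_eq_div_iff hq0 (pow_ne_zero _ (hal0 _))]
      rw [← h2]
      ring
    rw [hc]
    simp only
    rw [zpow_sub₀ h0, zpow_natCast, zpow_natCast, div_eq_mul_inv _ (((al (i + K) : ℂ) ^ 2 / q) ^ b i),
      ← inv_pow, ← h1, div_pow, div_pow, div_mul_div_comm, mul_pow, ← pow_mul, ← pow_mul,
      ← pow_mul, ← pow_mul, ← pow_add, mul_comm 2 (a i), mul_comm 2 (b i)]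
  -- the relation
  obtain ⟨M, k, hM, t, ht, hzt⟩ := hz
  obtain ⟨x, K, hx, hK, hKv, hfix⟩ := fix_prod σ v t ht
  have hS0A : S 0 ≠ 0 := by
    intro h0
    have h1 : s.prod = 0 := by rw [← hS0, h0]; rfl
    rw [h1, mul_zero, zero_pow hN.ne'] at hrel
    exact pow_ne_zero _ hq0 hrel.symm
  have hrelA : x ^ N * S 0 ^ (N * M) = (q : AA) ^ (k * N + m * M) := by
    apply Subtype.ext
    push_cast
    rw [hx, hS0, ← hzt]
    calc (z ^ M * (q : ℂ) ^ k) ^ N * s.prod ^ (N * M)
        = (q : ℂ) ^ (k * N) * ((z * s.prod) ^ N) ^ M := by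
          rw [mul_pow, mul_pow, mul_pow, ← pow_mul, ← pow_mul, ← pow_mul, ← pow_mul]
          rw [mul_comm M N]
          ring
      _ = _ := by rw [hrel, ← pow_mul, ← pow_add]
  have hrelK : x ^ N * S K ^ (N * M) = (q : AA) ^ (k * N + m * M) := by
    have h1 := congrArg (σ ^ K) hrelA
    rw [map_mul, map_pow, map_pow, map_pow, map_natCast, hfix, ← hSK] at h1
    exact h1
  have hx0 : x ^ N ≠ 0 := by
    intro h0
    rw [h0, zero_mul] at hrelA
    exact pow_ne_zero _ hqA hrelA.symm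
  have hSS : S K ^ (N * M) = S 0 ^ (N * M) := by
    rw [← hrelA] at hrelK
    exact mul_left_cancel₀ hx0 hrelK
  have hRel : Rel q al ((X ^ K - 1) * P) := by
    refine ⟨N * M, Nat.mul_pos hN hM, ?_⟩
    have h0 : ∀ i, ((al i : ℂ) ^ 2 / q) ≠ 0 := fun i => div_ne_zero (pow_ne_zero _ (hal0 i)) hq0
    have h1 : (X ^ K - 1) * P = X ^ K * P + C (-1) * P := by
      rw [C_neg, C_1]
      ring
    rw [h1, ID.th_add h0, ID.th_C_mul, hThK]
    have h2 : Th q al P = (S 0 : ℂ) ^ 2 / (q : ℂ) ^ s.card := by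
      have := hThK 0
      rwa [pow_zero, one_mul] at this
    have h3 : (S 0 : ℂ) ≠ 0 := fun h4 => hS0A (Subtype.ext h4)
    have h5 : ((S K : AA) : ℂ) ^ (N * M) = ((S 0 : AA) : ℂ) ^ (N * M) := by
      have := congrArg (fun x : AA => (x : ℂ)) hSS
      push_cast at this
      exact this
    have h6 : (q : ℂ) ^ s.card ≠ 0 := pow_ne_zero _ hq0
    rw [h2, zpow_neg, zpow_one, ← div_eq_mul_inv, div_div_div_cancel_right₀ h6, ← div_pow,
      ← pow_mul, mul_comm 2, pow_mul, div_pow, h5, div_self (pow_ne_zero _ h3), one_pow]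
  -- divisibility
  obtain ⟨I, hI, hsat, hX⟩ := hID n g (eta n) q ρ σ r ζ al be w v' h
  obtain ⟨hc1, hc2, -⟩ := hCYC g (eta n) hg hη
  have hQ : (X ^ K - 1) * P ∈ I := (hI _).2 hRel
  obtain ⟨u, hu⟩ := hvg
  rw [mul_comm] at hu
  have hgn : n / 2 = u * v := by
    have := h.two_g
    omega
  have hu1 : 1 ≤ u := by
    rcases Nat.eq_zero_or_pos u with h1 | h1
    · rw [h1, zero_mul] at hu
      omega
    · exact h1
  have hdvd : (X ^ g - C (eta n)) ∣ P * (X ^ u - C (eta n)) := by
    refine hc2 _ fun d hd => ?_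
    have hd0 := ALG.pos_of_mem hd
    have hprim := Complex.isPrimitiveRoot_exp d hd0.ne'
    set zd := Complex.exp (2 * Real.pi * Complex.I / d) with hzd
    by_cases h1 : cyclotomic d ℤ ∣ X ^ u - C (eta n)
    · exact h1.mul_left _
    refine Dvd.dvd.mul_right ?_ _
    have h2 : zd ^ u ≠ (eta n : ℂ) := fun h3 => h1 ((cyc_dvd hd0 hprim).2 h3)
    have hne : d ≠ d0 n := by
      intro h3
      rw [h3] at hprim
      exact h2 (eta_of_d0 hn hv hgn hprim)
    have h3 : zd ^ g = (eta n : ℂ) := (cyc_dvd hd0 hprim).1 ⟨_, (hc1 d hd).1.symm⟩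
    have h4 : ¬ cyclotomic d ℤ ∣ X ^ K - 1 := by
      intro h5
      have h6 : zd ^ K = ((1 : ℤ) : ℂ) := (cyc_dvd hd0 hprim).1 (by rwa [C_1])
      rw [Int.cast_one] at h6
      refine h2 (eta_of_pow hη hv hKv ?_ ?_)
      · rw [← pow_mul, ← hu, h3]
      · rw [← pow_mul, mul_comm, pow_mul, h6, one_pow]
    have h5 : cyclotomic d ℤ ∣ (X ^ K - 1) * P := by
      by_contra hnot
      have h1 : cyclotomic d ℤ * Psi g (eta n) d ∈ I := by
        rw [(hc1 d hd).1]
        exact hX
      have h2 := hDIV I hsat _ (Psi g (eta n) d) d hd0 h1 hQ hnot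
      exact hex ⟨d, hd, hne, (hI _).1 h2⟩
    exact ((cyclotomic.irreducible hd0).prime.dvd_or_dvd h5).resolve_left h4
  have hdvd2 : Psi0 v u (eta n) ∣ P := by
    have h1 := LAST.psi0_mul v u (eta n) hη hv
    rw [← hu] at h1
    rw [← h1, mul_comm (X ^ u - C (eta n))] at hdvd
    exact (mul_dvd_mul_iff_right (X_pow_sub_C_ne_zero (by omega) _)).1 hdvd
  have hP0 : P = 0 := by
    by_contra hne
    have h1 := short hη hu1 hv.pos hu P hdeg hne hdvd2 (fun i => a i + b i) (by
      intro i hi h2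
      rw [hcoeff i hi, hc] at h2
      simp only at h2 ⊢
      omega)
    rw [← hcard] at h1
    omega
  intro i hi
  have h1 := hcoeff i hi
  rw [hP0, coeff_zero, hc] at h1
  simp only at h1
  have h2 : a i = b i := by omega
  exact h2

end Pool.Agent.Work.TR
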