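import Pool.Agent.Work.MP_223b32_tr.Defs
import Pool.Agent.Work.MP_223b32_t3.FLAR
import Pool.Agent.Work.MP_223b32_tc.FLA

/-!
# The linear algebra of the relative version (adapted from `FY.FLX` by helper56)
-/

namespace Pool.Agent.Work.TR

open Finset Polynomial TensorProduct Pool.Agent.Work.MP_223b32_ag Pool.Agent.Work.MP_223b32_ag_56
open Pool.Agent.Work.T3 Pool.Agent.Work.T3.FLAR Pool.Agent.Work.TC
open Module Filter Topology

/-- The linear algebra: `P` holds for the eigenvalues of `Φ`. -/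
theorem flg (V : Type) [AddCommGroup V] [Module ℂ V] [Module.Finite ℂ V] (Φ : Module.End ℂ V)
    (hΦ : Φ.IsSemisimple) (q : ℕ) (hq : 1 < q) (P : ℂ → Prop) (hP0 : ∀ z, P z → z ≠ 0)
    (hP2 : ∀ z, P z → z ^ 2 ≠ q) (hV : ∀ μ, Φ.HasEigenvalue μ → P μ)
    (H : Type) [AddCommGroup H] [Module ℂ H] [Module.Finite ℂ H] (φ : Module.End ℂ H) (a b : ℕ)
    (hC : ∀ s : Multiset ℂ, (∀ z ∈ s, P z) → s.card ≤ b → ∀ M : ℕ, 0 < M →
      s.prod ^ (2 * M) = (q : ℂ) ^ (M * s.card) →
      ∀ z, P z → s.count ((q : ℂ) / z) = s.count z)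
    (hR : ∀ z, φ.HasEigenvalue z → ∀ s : Multiset ℂ, (∀ w ∈ s, P w) → s.card = b →
      ∀ N c : ℕ, 0 < N → a + b = 2 * c → (z * s.prod) ^ N = (q : ℂ) ^ (N * c) →
      ∀ w, P w → s.count ((q : ℂ) / w) = s.count w)
    (n : ℕ) (hn : 0 < n) : Indep (φ ^ n) (Φ ^ n) ((q : ℝ) ^ n) a b := by
  classical
  have hq0 : (q : ℂ) ≠ 0 := by
    have : q ≠ 0 := by omega
    exact_mod_cast this
  have hQ1 : 1 < (q : ℝ) ^ n := one_lt_pow₀ (by exact_mod_cast hq) hn.ne'
  generalize hQ : (q : ℝ) ^ n = Q at hQ1 ⊢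
  have hQC : (Q : ℂ) = (q : ℂ) ^ n := by rw [← hQ]; push_cast; rfl
  have hQ0 : (Q : ℂ) ≠ 0 := by rw [hQC]; exact pow_ne_zero _ hq0
  have hT2 : ∀ k, 2 * k ≤ b →
      tateClasses (Φ ^ n) (Q : ℂ) k = tateClasses (Φ ^ n) (Q : ℂ) 1 ^ k := by
    intro k hk
    have h := (stmt_FLA V Φ hΦ q hq P k (fun s hs hsk M hM hsM => hC s hs (hsk.trans hk) M hM hsM)
      n hn (fun μ hμ => Or.inl (hV μ hμ)) k le_rfl).1
    rw [hQ] at h
    exact h
  obtain ⟨bV, lam, hbV⟩ := exists_eigenbasis hΦ
  have hG : ∀ i, (Φ ^ n) (bV i) = lam i ^ n • bV i := fun i => (hbV i).pow_apply n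
  have hlam : ∀ i, P (lam i) := fun i => hV _ (End.hasEigenvalue_of_hasEigenvector (hbV i))
  set G : End ℂ V := Φ ^ n with hGdef
  set ψ : End ℂ H := φ ^ n with hψ
  set μ : Fin (finrank ℂ V) → ℂ := fun i => lam i ^ n with hμ
  -- the eigenvalues
  have hclaim : ∀ {c : ℕ} (s : Set.powersetCard
      (Fin (finrank ℂ V)) b) {z : ℂ}, a + b = 2 * c → φ.HasEigenvalue z →
      z ^ n * eig μ s = (Q : ℂ) ^ c → ∃ k, b = 2 * k ∧ eig μ s = (Q : ℂ) ^ k := by
    intro c s z hc hz hrel
    set l := List.ofFn (Set.powersetCard.ofFinEmbEquiv.symm s) with hl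
    have h1 : eig μ s = (((l.map lam : List ℂ) : Multiset ℂ).prod) ^ n := by
      rw [eig, ← hl, Multiset.prod_coe]
      clear_value l
      clear hl hrel
      induction l with
      | nil => simp
      | cons x l ih =>
        rw [List.map_cons, List.map_cons, List.prod_cons, List.prod_cons, mul_pow, ih]
    have hcard : ((l.map lam : List ℂ) : Multiset ℂ).card = b := by
      rw [Multiset.coe_card, List.length_map, hl, List.length_ofFn]
    have hPl : ∀ w ∈ ((l.map lam : List ℂ) : Multiset ℂ), P w := by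
      intro w hw
      rw [Multiset.mem_coe, List.mem_map] at hw
      obtain ⟨i, -, rfl⟩ := hw
      exact hlam i
    have hbal := hR z hz ((l.map lam : List ℂ) : Multiset ℂ) hPl hcard n c hn hc
      (by rw [mul_pow, ← h1, hrel, hQC, ← pow_mul])
    obtain ⟨k, hk1, hk2⟩ := balanced hq0 _ ((l.map lam : List ℂ) : Multiset ℂ) le_rfl
      (fun w hw => hP0 w (hPl w hw)) (fun w hw => hP2 w (hPl w hw))
      (fun w hw => hbal w (hPl w hw))
    rw [hcard] at hk1
    refine ⟨k, hk1, ?_⟩
    rw [h1, hk2, hQC, ← pow_mul, ← pow_mul, mul_comm]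
  have hroot : ∀ x ∈ ψ.charpoly.roots, ∃ z, φ.HasEigenvalue z ∧ z ^ n = x := by
    intro x hx
    refine eig_pow φ hn ?_
    rw [Module.End.hasEigenvalue_iff_isRoot_charpoly]
    exact isRoot_of_mem_roots hx
  have hcoord : ∀ {b c : ℕ} (s : Set.powersetCard (Fin (finrank ℂ V)) b) {h : H}, h ≠ 0 →
      eig μ s • ψ h = (Q : ℂ) ^ c • h →
      ∃ z, φ.HasEigenvalue z ∧ z ^ n * eig μ s = (Q : ℂ) ^ c ∧
        ψ h = ((Q : ℂ) ^ c / eig μ s) • h := by
    intro b c s h hh hs
    have hε : eig μ s ≠ 0 := by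
      intro h0
      rw [h0, zero_smul] at hs
      exact (smul_ne_zero (pow_ne_zero _ hQ0) hh) hs.symm
    have h1 : ψ h = ((Q : ℂ) ^ c / eig μ s) • h := by
      rw [div_eq_inv_mul, mul_smul, ← hs, smul_smul, inv_mul_cancel₀ hε, one_smul]
    obtain ⟨z, hz, hzn⟩ := eig_pow φ hn (μ := (Q : ℂ) ^ c / eig μ s)
      (End.hasEigenvalue_of_hasEigenvector ⟨End.mem_eigenspace_iff.2 h1, hh⟩)
    exact ⟨z, hz, by rw [hzn, div_mul_cancel₀ _ hε], h1⟩
  -- the L-function
  have hLψ : ∀ s : ℂ, LL ψ Q s =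
      ((ψ.charpoly.roots.map fun e => 1 - (Q : ℂ) ^ (-s) * e).prod)⁻¹ := by
    intro s
    rw [LL, det_one_sub]
  have hL : ∀ (b : ℕ) (s : ℂ), LL (Fr ψ G b) Q s =
      (((∑ t : Set.powersetCard (Fin (finrank ℂ V)) b,
        ψ.charpoly.roots.map fun e => eig μ t * e).map
          fun e => 1 - (Q : ℂ) ^ (-s) * e).prod)⁻¹ := by
    intro b s
    rw [LL, Fr, det_tensor (e := bV.exteriorPower b) (fun t => map_basis hG t)]
    congr 1
    have h1 : (∑ t : Set.powersetCard (Fin (finrank ℂ V)) b,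
        ψ.charpoly.roots.map fun e => eig μ t * e).map (fun e => 1 - (Q : ℂ) ^ (-s) * e) =
        ∑ t : Set.powersetCard (Fin (finrank ℂ V)) b,
          (ψ.charpoly.roots.map fun e => eig μ t * e).map (fun e => 1 - (Q : ℂ) ^ (-s) * e) :=
      map_sum (Multiset.mapAddMonoidHom fun e => 1 - (Q : ℂ) ^ (-s) * e) _ _
    rw [h1, Multiset.prod_sum]
    refine prod_congr rfl fun t _ => ?_
    rw [det_one_sub, Multiset.map_map]
    refine congrArg Multiset.prod (Multiset.map_congr rfl fun e _ => ?_)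
    simp only [Function.comp_apply]
    ring
  have hpole : ∀ (b c : ℕ), HasPoleOrder (LL (Fr ψ G b) Q) c
      (∑ t : Set.powersetCard (Fin (finrank ℂ V)) b,
        (ψ.charpoly.roots.map fun e => eig μ t * e).count ((Q : ℂ) ^ c)) := by
    intro b c
    have h1 := pole hQ1 c (∑ t : Set.powersetCard (Fin (finrank ℂ V)) b,
        ψ.charpoly.roots.map fun e => eig μ t * e)
    rw [Multiset.count_sum'] at h1
    have h2 : LL (Fr ψ G b) Q = fun s : ℂ => (((∑ t : Set.powersetCard (Fin (finrank ℂ V)) b,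
        ψ.charpoly.roots.map fun e => eig μ t * e).map
          fun e => 1 - (Q : ℂ) ^ (-s) * e).prod)⁻¹ := funext (hL b)
    rw [h2]
    exact h1
  refine ⟨?_, ?_⟩
  · -- even degrees
    rintro i k rfl rfl
    have hεk : ∀ (s : Set.powersetCard (Fin (finrank ℂ V)) (2 * k)) {z : ℂ}, φ.HasEigenvalue z →
        z ^ n * eig μ s = (Q : ℂ) ^ (i + k) → eig μ s = (Q : ℂ) ^ k := by
      intro s z hz hrel
      obtain ⟨k', hk', hε⟩ := hclaim s (by ring) hz hrel
      have : k' = k := by omega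
      rw [hε, this]
    have hDiv : ∀ d : ⋀[ℂ]^(2 * k) V, d ∈ T3.Div G Q k ↔ exteriorPower.map (2 * k) G d =
        (Q : ℂ) ^ k • d := by
      intro d
      rw [T3.Div, Submodule.mem_comap, ← hT2 k le_rfl, mem_tateClasses_iff]
      constructor
      · rintro ⟨-, h⟩
        apply Subtype.ext
        rw [coe_map_eq, SetLike.val_smul]
        exact h
      · intro h
        refine ⟨d.2, ?_⟩
        have h2 := congrArg (fun x : ⋀[ℂ]^(2 * k) V => (x : ExteriorAlgebra ℂ V)) h
        simp only [coe_map_eq, SetLike.val_smul] at h2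
        exact h2
    refine ⟨?_, ?_⟩
    · apply le_antisymm
      · intro x hx
        rw [Tate, LinearMap.mem_ker, LinearMap.sub_apply, LinearMap.smul_apply,
          LinearMap.id_apply, sub_eq_zero] at hx
        obtain ⟨h, hh, hco⟩ := ker_tensor (e := bV.exteriorPower (2 * k))
          (fun t => map_basis hG t) ψ _ hx
        rw [← hh]
        refine Submodule.sum_mem _ fun s hs => ?_
        have hs0 : h s ≠ 0 := Finsupp.mem_support_iff.1 hs
        obtain ⟨z, hz, hzε, hψh⟩ := hcoord s hs0 (hco s)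
        have hε := hεk s hz hzε
        have h1 : h s ∈ Tate ψ (Q : ℂ) i := by
          rw [Tate, LinearMap.mem_ker, LinearMap.sub_apply, LinearMap.smul_apply,
            LinearMap.id_apply, sub_eq_zero, hψh, hε, pow_add,
            mul_div_cancel_right₀ _ (pow_ne_zero _ hQ0)]
        have h2 : bV.exteriorPower (2 * k) s ∈ T3.Div G (Q : ℂ) k := by
          rw [hDiv, map_basis hG, hε]
        exact ⟨⟨h s, h1⟩ ⊗ₜ ⟨_, h2⟩, rfl⟩
      · rintro _ ⟨y, rfl⟩
        rw [Tate, LinearMap.mem_ker, LinearMap.sub_apply, LinearMap.smul_apply,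
          LinearMap.id_apply, sub_eq_zero]
        induction y using TensorProduct.induction_on with
        | zero => simp
        | add x y hx hy => rw [map_add, map_add, hx, hy, smul_add]
        | tmul h d =>
          rw [TensorProduct.map_tmul, Fr, TensorProduct.map_tmul]
          have h1 : ψ (h : H) = (Q : ℂ) ^ i • (h : H) := mem_Tate.1 h.2
          have h3 := (hDiv d).1 d.2
          simp only [Submodule.subtype_apply]
          rw [h1, h3, TensorProduct.smul_tmul_smul, ← pow_add]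
    · intro r hr
      have h1 : r = ψ.charpoly.roots.count ((Q : ℂ) ^ i) := by
        refine pole_unique hr ?_
        have h2 := pole hQ1 i ψ.charpoly.roots
        have h3 : LL ψ Q = fun s : ℂ =>
            ((ψ.charpoly.roots.map fun e => 1 - (Q : ℂ) ^ (-s) * e).prod)⁻¹ := funext hLψ
        rw [h3]
        exact h2
      have h2 := hpole (2 * k) (i + k)
      have h3 : ∀ t : Set.powersetCard (Fin (finrank ℂ V)) (2 * k),
          (ψ.charpoly.roots.map fun e => eig μ t * e).count ((Q : ℂ) ^ (i + k)) =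
            if eig μ t = (Q : ℂ) ^ k then r else 0 := by
        intro t
        split_ifs with ht
        · rw [ht, h1, add_comm i k, pow_add]
          exact Multiset.count_map_eq_count' (fun e : ℂ => (Q : ℂ) ^ k * e) _
            (fun x y hxy => mul_left_cancel₀ (pow_ne_zero _ hQ0) hxy) _
        · rw [Multiset.count_eq_zero]
          intro hmem
          obtain ⟨e, he, hee⟩ := Multiset.mem_map.1 hmem
          obtain ⟨z, hz, rfl⟩ := hroot e he
          exact ht (hεk t hz (by rw [mul_comm]; exact hee))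
      rw [sum_congr rfl fun t _ => h3 t, ← sum_filter, sum_const, smul_eq_mul] at h2
      have h4 : finrank ℂ (T3.Div G (Q : ℂ) k) =
          (univ.filter fun t : Set.powersetCard (Fin (finrank ℂ V)) (2 * k) =>
            eig μ t = (Q : ℂ) ^ k).card := by
        have h5 : finrank ℂ (T3.Div G (Q : ℂ) k) = finrank ℂ (tateClasses G (Q : ℂ) k) := by
          rw [T3.Div, ← hT2 k le_rfl]
          exact LinearEquiv.finrank_eq (Submodule.comapSubtypeEquivOfLe
            (inf_le_left : tateClasses G (Q : ℂ) k ≤ _))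
        rw [h5, finrank_tateClasses hG, Fintype.card_subtype]
      rw [h4, mul_comm r]
      have h6 : ((i : ℝ) + k) = ((i + k : ℕ) : ℝ) := by push_cast; rfl
      rw [h6]
      exact h2
  · -- odd degrees
    intro c hodd hac
    have hno : ∀ (s : Set.powersetCard (Fin (finrank ℂ V)) b) {z : ℂ}, φ.HasEigenvalue z →
        z ^ n * eig μ s ≠ (Q : ℂ) ^ c := by
      intro s z hz hrel
      obtain ⟨k, hk, -⟩ := hclaim s hac hz hrel
      obtain ⟨m, hm⟩ := hodd
      omega
    refine ⟨?_, ?_⟩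
    · rw [eq_bot_iff]
      intro x hx
      rw [Tate, LinearMap.mem_ker, LinearMap.sub_apply, LinearMap.smul_apply,
        LinearMap.id_apply, sub_eq_zero] at hx
      obtain ⟨h, hh, hco⟩ := ker_tensor (e := bV.exteriorPower b)
        (fun t => map_basis hG t) ψ _ hx
      rw [Submodule.mem_bot, ← hh]
      refine Finset.sum_eq_zero fun s hs => ?_
      have hs0 : h s ≠ 0 := Finsupp.mem_support_iff.1 hs
      obtain ⟨z, hz, hzε, -⟩ := hcoord s hs0 (hco s)
      exact absurd hzε (hno s hz)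
    · have h2 := hpole b c
      have h3 : ∑ t : Set.powersetCard (Fin (finrank ℂ V)) b,
          (ψ.charpoly.roots.map fun e => eig μ t * e).count ((Q : ℂ) ^ c) = 0 := by
        refine sum_eq_zero fun t _ => ?_
        rw [Multiset.count_eq_zero]
        intro hmem
        obtain ⟨e, he, hee⟩ := Multiset.mem_map.1 hmem
        obtain ⟨z, hz, rfl⟩ := hroot e he
        exact hno t hz (by rw [mul_comm]; exact hee)
      rw [h3] at h2
      exact h2

end Pool.Agent.Work.TR
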