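import Pool.Agent.Work.MP_223b32_t3.Defs
import Pool.Agent.Work.MP_223b32_tl.Defs2

/-!
# Hyperelliptic curves over a fixed finite field are independent of varieties with small eigenvalue
fields: definitions

`F` is a finite field with `q` elements, `n = 2 g + 1` a prime such that `2` and `-1` generate the
group of units modulo `n`, `C` the curve `y ^ 2 = f(x)` of genus `g = n / 2`, `f` monic irreducible of
degree `n` over `F`; `Y` is a smooth projective variety over `F`, `H = H^a(Y)` one of its cohomology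
groups (with complex coefficients) and `φ` its Frobenius endomorphism.
-/

namespace Pool.Agent.Work.TR

open Finset Polynomial TensorProduct Pool.Agent.Work.MP_223b32_ag Pool.Agent.Work.TC
open Pool.Agent.Work.T3 Pool.Agent.Work.TL

/-- Some power of `z` is, up to a power of `q`, a product of algebraic integers each of degree less
than every prime factor of `v`. -/
def Tame (q v : ℕ) (z : ℂ) : Prop :=
  ∃ M k : ℕ, 0 < M ∧ ∃ t : Multiset ℂ,
    (∀ γ ∈ t, ∃ P : ℤ[X], P.Monic ∧ aeval γ P = 0 ∧ ∀ ℓ : ℕ, ℓ.Prime → ℓ ∣ v → P.natDegree < ℓ) ∧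
    z ^ M * (q : ℂ) ^ k = t.prod

/-- The condition on `H = H^a(Y)` and `b`: for an odd divisor `v > b` of the genus `g = n / 2` all
Frobenius eigenvalues of `H` are `Tame q v`; or `q` is not a square, `q ≠ n` modulo `8`, and all
Frobenius eigenvalues of `H` are roots of unity times `q ^ (a / 2)`. -/
def Allowed (q n a b : ℕ) {H : Type} [AddCommGroup H] [Module ℂ H] (φ : Module.End ℂ H) : Prop :=
  (∃ v : ℕ, Odd v ∧ v ∣ n / 2 ∧ b < v ∧ ∀ z, φ.HasEigenvalue z → Tame q v z) ∨
  (¬ IsSquare q ∧ n % 8 ≠ q % 8 ∧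
    ∀ z, φ.HasEigenvalue z → ∃ M : ℕ, 0 < M ∧ z ^ (2 * M) = (q : ℂ) ^ (M * a))

/-- All powers of the Jacobian of `y ^ 2 = f(x)` are independent of `Y`, over all finite extensions of
`F` (`k` is the degree of the extension). `V` is the `H¹` of a power of the Jacobian, `Φ` its
(semisimple) Frobenius endomorphism, whose eigenvalues are those of the curve. -/
def TateY (F : Type) [Field F] [Fintype F] (n : ℕ) (f : F[X]) : Prop :=
  ∃ α : Fin (n - 1) → ℂ, IsFrob F f α ∧
    ∀ (V : Type) [AddCommGroup V] [Module ℂ V] [Module.Finite ℂ V] (Φ : Module.End ℂ V),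
      Φ.IsSemisimple → (∀ μ, Φ.HasEigenvalue μ → ∃ i, μ = α i) →
    ∀ (H : Type) [AddCommGroup H] [Module ℂ H] [Module.Finite ℂ H] (φ : Module.End ℂ H) (a b : ℕ),
      Allowed (Fintype.card F) n a b φ → ∀ k : ℕ, 0 < k →
        Indep (φ ^ k) (Φ ^ k) ((Fintype.card F : ℝ) ^ k) a b

/-- The monic irreducible polynomials of degree `n` without this property. -/
def exceptional (F : Type) [Field F] [Fintype F] (n : ℕ) : Set F[X] :=
  {f | f ∈ irr F n ∧ ¬ TateY F n f}

end Pool.Agent.Work.TR
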