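import Pool.Agent.Work.MP_223b32_tr.FLG
import Pool.Agent.Work.MP_223b32_tr.ALGR
import Pool.Agent.Work.MP_223b32_tl_helper28.ONEL

/-!
# ONEV: a bad element satisfies one of the linear conditions
-/

namespace Pool.Agent.Work.TR

open Finset Polynomial Pool.Agent.Work.TC Pool.Agent.Work.TL

/-- The elements without the property. -/
def BadY (F : Type) {K : Type} [Field F] [Fintype F] [Field K] [Fintype K] [Algebra F K]
    (n : ℕ) (a : K) : Prop := ¬ TateY F n (minpoly F a)

/-- ONEV (copy of ONET). -/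
def Stmt_ONEV : Prop :=
  ∀ (F K : Type) [Field F] [Fintype F] [Field K] [Fintype K] [DecidableEq K] [Algebra F K],
    ringChar F ≠ 2 → ∀ n : ℕ, n.Prime → n ≠ 2 →
    Module.finrank F K = n → Ord n → (n % 8 = 3 ∨ n % 8 = 5 ∨ n % 8 = 7) →
    (2 : ZMod n) ^ (n / 2) = (TL.eta n : ZMod n) →
    ∀ (G : Type) [Field G] [Fintype G] [DecidableEq G] [Algebra (ZMod 2) G],
      ∀ ξ : G, ξ ^ n = 1 → ξ ≠ 1 → ∃ c' : ℕ → G, ∀ a : K, a ∉ (algebraMap F K).range →
        BadY F n a → ∃ d ∈ DD (n / 2) (TL.eta n), d ≠ d0 n ∧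
          ∑ k ∈ Icc 1 (n / 2),
            (dl F a k : G) * cc n (JJ (n / 2) (Psi (n / 2) (TL.eta n) d) ξ) k = c' d

/-- ONEV. -/
theorem stmt_ONEV (hRHO : Stmt_RHO) (hFA : Stmt_FA) (hDATA : Stmt_DATA) (hORBX : Stmt_ORBX)
    (hID : Stmt_ID) (hDIV : Stmt_DIV) (hALGT : Stmt_ALGT) (hCYC : Stmt_CYC) (hFO : Stmt_FO)
    (hSTAR : Stmt_STAR) : Stmt_ONEV := by
  classical
  intro F K _ _ _ _ _ _ hF n hn hn2 hfin hord hn8 hη G _ _ _ _ ξ hξ hξ1
  obtain ⟨ρ⟩ := hRHO
  obtain ⟨σ, hσ⟩ := hFA ρ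
  have hodd : Odd n := hn.odd_of_ne_two hn2
  have hn2' : 2 * (n / 2) + 1 = n := by
    obtain ⟨k, hk⟩ := hodd
    omega
  have hn3 : 3 ≤ n := by
    have := hn.two_le
    omega
  have hg1 : 1 ≤ n / 2 := by omega
  set q := Fintype.card F with hq
  have hqodd : Odd q := Nat.odd_iff.2 (FiniteField.odd_card_of_char_ne_two hF)
  have hq1 : 1 < q := Fintype.one_lt_card
  have hq0 : (q : ℂ) ≠ 0 := by
    have : q ≠ 0 := by omega
    exact_mod_cast this
  have hηpm : TL.eta n = 1 ∨ TL.eta n = -1 := by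
    unfold TL.eta
    split_ifs
    · exact Or.inl rfl
    · exact Or.inr rfl
  have hGalg : Algebra.IsAlgebraic (ZMod 2) G := by
    have : Module.Finite (ZMod 2) G := Module.Finite.of_finite
    infer_instance
  set ι : G →ₐ[ZMod 2] Om := IsAlgClosed.lift with hι
  have hιinj : Function.Injective ι := ι.toRingHom.injective
  set g := n / 2 with hg
  refine ⟨fun d => ((((range g).filter fun i => Odd ((Psi g (TL.eta n) d).coeff i)).card *
    kap (q ^ n) : ℕ) : G) + (eps q : G) * ∑ ζ ∈ JJ g (Psi g (TL.eta n) d) ξ,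
      ∑ k ∈ Icc 1 g, (ζ ^ k + ζ ^ (2 * k)), ?_⟩
  intro a ha hbad
  obtain ⟨c, r, β', w', hc, hfrob, h1, h2, h3, h4, h5, h6, h7, h8⟩ :=
    hDATA F K hF n hn hn2 hfin ρ a ha
  have hζn : (ι ξ) ^ n = 1 := by rw [← map_pow, hξ, map_one]
  have hζ1 : ι ξ ≠ 1 := fun h => hξ1 (hιinj (by rw [h, map_one]))
  obtain ⟨al, be, w, v, horb, hall⟩ := hORBX ρ σ hσ n q hn hn2 hqodd hord (TL.eta n) hηpm hη r β' w'
    h1 h2 h3 h4 h5 h6 h8 (ι ξ) hζn hζ1
  by_cases hex : ∃ d ∈ DD g (TL.eta n), d ≠ d0 n ∧ Rel q al (Psi g (TL.eta n) d)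
  · obtain ⟨d, hd, hd0, hrel⟩ := hex
    refine ⟨d, hd, hd0, ?_⟩
    obtain ⟨hC1, hC2, hC3⟩ := (hCYC g (TL.eta n) hg1 hηpm).1 d hd
    have hdeg : (Psi g (TL.eta n) d).natDegree < g := by
      have hdpos : 0 < d := by
        unfold DD at hd
        split_ifs at hd
        · exact Nat.pos_of_mem_divisors hd
        · exact Nat.pos_of_mem_divisors (mem_filter.1 hd).1
      have := Nat.totient_pos.2 hdpos
      omega
    have h9 := hFO n g (TL.eta n) q ρ σ r (ι ξ) al be w v horb (Psi g (TL.eta n) d) hdeg hrel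
    set P := Psi g (TL.eta n) d with hP
    set S := (range g).filter fun i => Odd (P.coeff i) with hS
    have hJmap : JJ g P (ι ξ) = (JJ g P ξ).map ⟨ι, hιinj⟩ := by
      unfold JJ
      rw [map_eq_image, image_image]
      refine image_congr fun i _ => ?_
      simp
    have hJsum : ∀ f : Om → Om, ∑ ζ ∈ JJ g P (ι ξ), f ζ = ∑ i ∈ S, f ((ι ξ) ^ 2 ^ i) := by
      intro f
      unfold JJ
      rw [sum_image]
      intro i hi j hj hij
      have hi' : i < n / 2 := mem_range.1 (mem_filter.1 hi).1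
      have hj' : j < n / 2 := mem_range.1 (mem_filter.1 hj).1
      exact (ONEL.pow_two_inj hn hn2 hord hζn hζ1 hi' hj').1 hij
    have hadm : Adm (2 * g + 1) (JJ g P (ι ξ)) := by
      intro ζ hζ
      obtain ⟨i, hi, rfl⟩ := mem_image.1 hζ
      have hi' : i < n / 2 := mem_range.1 (mem_filter.1 hi).1
      refine ⟨?_, ?_, ?_⟩
      · rw [hn2', ← pow_mul, mul_comm, pow_mul, hζn, one_pow]
      · intro h
        have h10 : n ∣ 2 ^ i := by
          rw [← orderOf_eq_prime (p := n) (hp := ⟨hn⟩) hζn hζ1]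
          exact orderOf_dvd_of_pow_eq_one h
        exact hn2 ((Nat.prime_dvd_prime_iff_eq hn Nat.prime_two).1 (hn.dvd_of_dvd_pow h10))
      · intro h
        obtain ⟨j, hj, hij⟩ := mem_image.1 h
        have hj' : j < n / 2 := mem_range.1 (mem_filter.1 hj).1
        apply (ONEL.pow_two_inj hn hn2 hord hζn hζ1 hi' hj').2
        rw [hij, mul_inv_cancel₀]
        exact pow_ne_zero _ (fun h0 => by rw [h0, zero_pow hn.ne_zero] at hζn; exact zero_ne_one hζn)
    have hstar := hSTAR Om g (eps q) r ?_ (JJ g P (ι ξ)) hadm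
    · rw [hn2', hJsum] at hstar
      have h10 : ∀ i ∈ S, ZZ n r ((ι ξ) ^ 2 ^ i) + ZZ n r ((ι ξ) ^ 2 ^ i) ^ 2 =
          ρ (w i) + ρ (w i) ^ 2 := fun i _ => by rw [horb.red_w]
      rw [sum_congr rfl h10, h9] at hstar
      have hcc : ∀ k, cc n (JJ g P (ι ξ)) k = ι (cc n (JJ g P ξ) k) := by
        intro k
        rw [hJmap]
        simp [cc, Finset.sum_map]
      have hee : ∑ ζ ∈ JJ g P (ι ξ), ∑ k ∈ Icc 1 g, (ζ ^ k + ζ ^ (2 * k)) =
          ι (∑ ζ ∈ JJ g P ξ, ∑ k ∈ Icc 1 g, (ζ ^ k + ζ ^ (2 * k))) := by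
        rw [hJmap]
        simp [Finset.sum_map]
      have hr : ∑ k ∈ Icc 1 g, (r k : Om) * cc n (JJ g P (ι ξ)) k =
          ι (∑ k ∈ Icc 1 g, (dl F a k : G) * cc n (JJ g P ξ) k) := by
        rw [map_sum]
        refine sum_congr rfl fun k hk => ?_
        rw [hcc, map_mul, map_natCast, h7 k (mem_Icc.1 hk).1 (by have := (mem_Icc.1 hk).2; omega)]
      rw [hr, hee] at hstar
      apply hιinj
      rw [map_add, map_natCast, map_mul, map_natCast, hstar, add_assoc, CharTwo.add_self_eq_zero,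
        add_zero]
    · intro k hk1 hk2
      rw [hn2']
      exact h8 k hk1 (by omega)
  · -- no relations: contradiction
    exfalso
    have hA := (hALGT n g q ρ σ r (ι ξ) al be w v horb hn8).resolve_left hex
    apply hbad
    refine ⟨fun i => c * (β' i : ℂ), hfrob, ?_⟩
    intro V _ _ _ Φ hΦ hev H _ _ _ φ a0 b0 hallowed k hk
    have hc0 : c ≠ 0 := by
      intro h0
      rw [h0] at hc
      norm_num at hc
    have hmulC : ∀ i, (al i : ℂ) * (be i : ℂ) = q := by
      intro i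
      have := congrArg (fun x : AA => (x : ℂ)) (horb.mul i)
      simpa using this
    have hal0 : ∀ i, (al i : ℂ) ≠ 0 := fun i h0 => by
      have := hmulC i
      rw [h0, zero_mul] at this
      exact hq0 this.symm
    have hbe0 : ∀ i, (be i : ℂ) ≠ 0 := fun i h0 => by
      have := hmulC i
      rw [h0, mul_zero] at this
      exact hq0 this.symm
    have hinj : Function.Injective fun z : ℂ => c * z := fun x y hxy => mul_left_cancel₀ hc0 hxy
    have hcc : ∀ z : ℂ, c * (c * z) = z := fun z => by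
      rw [← mul_assoc, ← pow_two, hc, one_mul]
    have hbe : ∀ i, (be i : ℂ) = (q : ℂ) / al i := by
      intro i
      rw [← hmulC i, mul_comm, mul_div_assoc, div_self (hal0 i), mul_one]
    have hal : ∀ i, (al i : ℂ) = (q : ℂ) / be i := by
      intro i
      rw [← hmulC i, mul_div_assoc, div_self (hbe0 i), mul_one]
    set Pr : ℂ → Prop := fun μ => ∃ i, μ = c * (β' i : ℂ) with hPr
    have hP0 : ∀ z, Pr z → z ≠ 0 := by
      rintro z ⟨i, rfl⟩
      refine mul_ne_zero hc0 ?_
      obtain ⟨j, hj, h10 | h10⟩ := hall i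
      · rw [h10]; exact hal0 j
      · rw [h10]; exact hbe0 j
    have hP2 : ∀ z, Pr z → z ^ 2 ≠ q := by
      rintro z ⟨i, rfl⟩ h10
      rw [mul_pow, hc, one_mul] at h10
      obtain ⟨j, hj, h11 | h11⟩ := hall i
      · rw [h11, ← hmulC j, pow_two] at h10
        exact (horb.inj j hj j hj).2 (Subtype.ext (mul_left_cancel₀ (hal0 j) h10))
      · rw [h11, ← hmulC j, pow_two] at h10
        exact (horb.inj j hj j hj).2 (Subtype.ext (mul_right_cancel₀ (hbe0 j) h10)).symm
    -- from `s` to `c s`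
    have core : ∀ s : Multiset ℂ,
        (∀ i < g, (s.map fun z => c * z).count (al i : ℂ) =
          (s.map fun z => c * z).count (be i : ℂ)) →
        ∀ z, Pr z → s.count ((q : ℂ) / z) = s.count z := by
      intro s h10 z hz
      obtain ⟨i0, rfl⟩ := hz
      have e2 : (q : ℂ) / (c * (β' i0 : ℂ)) = c * ((q : ℂ) / β' i0) := by
        have : (1 : ℂ) / c = c := by
          rw [div_eq_iff hc0, ← pow_two, hc]
        rw [mul_comm c, ← div_div, div_eq_mul_one_div _ c, this, mul_comm]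
      rw [e2]
      have e3 : ∀ z : ℂ, s.count (c * z) = (s.map fun z => c * z).count z := by
        intro z
        conv_rhs => rw [← hcc z]
        exact (Multiset.count_map_eq_count' _ _ hinj _).symm
      rw [e3, e3]
      obtain ⟨i, hi, hi' | hi'⟩ := hall i0
      · rw [hi', ← hbe]
        exact (h10 i hi).symm
      · rw [hi', ← hal]
        exact h10 i hi
    have hmem : ∀ s : Multiset ℂ, (∀ z ∈ s, Pr z) → ∀ y ∈ s.map (fun z => c * z),
        ∃ i < g, y = al i ∨ y = be i := by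
      intro s hs z hz
      obtain ⟨y, hy, rfl⟩ := Multiset.mem_map.1 hz
      obtain ⟨i, rfl⟩ := hs y hy
      obtain ⟨i', hi', hi''⟩ := hall i
      refine ⟨i', hi', ?_⟩
      rw [hcc]
      rcases hi'' with h11 | h11
      · exact Or.inl (by rw [h11])
      · exact Or.inr (by rw [h11])
    have hpr : ∀ s : Multiset ℂ, ∀ M : ℕ, ∀ z : ℂ,
        (z * (s.map fun z => c * z).prod) ^ (2 * M) = (z * s.prod) ^ (2 * M) := by
      intro s M z
      have e4 : c ^ (s.card * (2 * M)) = 1 := by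
        rw [show s.card * (2 * M) = 2 * (s.card * M) by ring, pow_mul, hc, one_pow]
      rw [Multiset.prod_map_mul, Multiset.map_const', Multiset.prod_replicate, Multiset.map_id',
        mul_left_comm, mul_pow, ← pow_mul, e4, one_mul]
    rcases hallowed with ⟨v0, hv0, hv0g, hbv, htame⟩ | ⟨hsq, hnq, hss⟩
    · have htame1 : Tame q v0 1 := ⟨1, 0, one_pos, 0, by simp, by simp⟩
      refine flg V Φ hΦ q hq1 Pr hP0 hP2 hev H φ a0 b0 ?_ ?_ k hk
      · intro s hs hsb M hM hsM
        refine core s (algr hID hDIV hCYC n g q ρ σ r (ι ξ) al be w v horb hn8 hex v0 hv0 hv0g 1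
          htame1 _ (hmem s hs) ?_ (2 * M) (M * s.card) (by omega) ?_)
        · rw [Multiset.card_map]
          exact lt_of_le_of_lt hsb hbv
        · rw [hpr, one_mul, hsM]
      · intro z hz s hs hsb N c1 hN hc1 hrel
        refine core s (algr hID hDIV hCYC n g q ρ σ r (ι ξ) al be w v horb hn8 hex v0 hv0 hv0g z
          (htame z hz) _ (hmem s hs) ?_ (2 * N) (2 * (N * c1)) (by omega) ?_)
        · rw [Multiset.card_map, hsb]
          exact hbv
        · rw [hpr, mul_comm 2 N, pow_mul, hrel, ← pow_mul, mul_comm 2]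
    · refine flg V Φ hΦ q hq1 Pr hP0 hP2 hev H φ a0 b0 ?_ ?_ k hk
      · intro s hs hsb M hM hsM
        refine core s (hA _ (hmem s hs) M hM ?_ (Or.inr ⟨hsq, hnq⟩))
        have h10 := hpr s M 1
        rw [one_mul, one_mul] at h10
        rw [h10, Multiset.card_map, hsM]
      · intro z hz s hs hsb N c1 hN hc1 hrel
        obtain ⟨M, hM, hzM⟩ := hss z hz
        refine core s (hA _ (hmem s hs) (M * N) (Nat.mul_pos hM hN) ?_ (Or.inr ⟨hsq, hnq⟩))
        have h10 := hpr s (M * N) 1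
        rw [one_mul, one_mul] at h10
        rw [h10, Multiset.card_map, hsb]
        have hz0 : (q : ℂ) ^ (M * a0 * N) ≠ 0 := pow_ne_zero _ hq0
        have h11 : (z * s.prod) ^ (2 * M * N) = (q : ℂ) ^ (M * N * (a0 + b0)) := by
          rw [mul_comm (2 * M) N, pow_mul, hrel, ← pow_mul, hc1]
          congr 1
          ring
        have h12 : (z * s.prod) ^ (2 * M * N) = (q : ℂ) ^ (M * a0 * N) *
            s.prod ^ (2 * (M * N)) := by
          rw [mul_pow, pow_mul z, hzM, ← pow_mul, mul_assoc 2]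
        rw [h12] at h11
        refine mul_left_cancel₀ hz0 (h11.trans ?_)
        rw [← pow_add]
        congr 1
        ring

end Pool.Agent.Work.TR
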